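import Mathlib

/-!
# Absolutely continuous measures and iterated sequential closures

If a Radon probability measure `μ` lies in the `α`-th sequential closure of `co Δ_K` and the
signed measure `ν` is absolutely continuous with respect to `μ`, then `ν` lies in the `α`-th
sequential closure of `lin Δ_K`.
-/

namespace Pool.Agent.Results.MP_1e6c42_an.AbsContinuous

open Set Filter Topology MeasureTheory

section Defs

/-- The iterated sequential closures `Seq^α(A)`: `Seq^0(A) = A`, `Seq^(α+1)(A)` is the set of all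
limits of sequences in `Seq^α(A)`, and unions are taken at limit ordinals. -/
noncomputable def SeqIter {X : Type*} [TopologicalSpace X] (A : Set X) (α : Ordinal.{0}) : Set X :=
  Ordinal.limitRecOn (motive := fun _ => Set X) α A (fun _ S => seqClosure S)
    (fun lam _ S => ⋃ (β : Ordinal.{0}) (h : β < lam), S β h)

variable (K : Type*) [TopologicalSpace K] [CompactSpace K]

/-- `M(K)`, identified with `C(K)*` with the weak-star topology. -/
abbrev M : Type _ := WeakDual ℝ C(K, ℝ)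

/-- The Dirac functional at a point. -/
noncomputable def dirac {K : Type*} [TopologicalSpace K] [CompactSpace K] (x : K) : M K :=
  StrongDual.toWeakDual (ContinuousMap.evalCLM ℝ x)

/-- The set `Δ_K` of Dirac functionals. -/
def Diracs : Set (M K) := Set.range dirac

variable {K} [MeasurableSpace K]

/-- The functional `φ` is integration against the positive measure `μ`. -/
def Represents (φ : M K) (μ : Measure K) : Prop :=
  ∀ f : C(K, ℝ), φ f = ∫ x, f x ∂μ

/-- The functional `φ` is integration against the signed measure `ν`. -/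
def SRepresents (φ : M K) (ν : SignedMeasure K) : Prop :=
  ∀ f : C(K, ℝ), φ f = (∫ x, f x ∂ν.toJordanDecomposition.posPart) -
    ∫ x, f x ∂ν.toJordanDecomposition.negPart

end Defs

section Iter

variable {X : Type*} [TopologicalSpace X] (A : Set X)

lemma seqIter_zero : SeqIter A 0 = A := Ordinal.limitRecOn_zero ..

lemma seqIter_add_one (α : Ordinal.{0}) : SeqIter A (α + 1) = seqClosure (SeqIter A α) :=
  Ordinal.limitRecOn_add_one ..

lemma seqIter_limit {α : Ordinal.{0}} (h : Order.IsSuccLimit α) :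
    SeqIter A α = ⋃ (β : Ordinal.{0}) (_ : β < α), SeqIter A β :=
  Ordinal.limitRecOn_limit _ _ _ _ h

end Iter

variable {K : Type*} [TopologicalSpace K] [CompactSpace K]

lemma tendsto_iff {u : ℕ → M K} {φ : M K} :
    Tendsto u atTop (𝓝 φ) ↔ ∀ f, Tendsto (fun n => u n f) atTop (𝓝 (φ f)) :=
  tendsto_iff_forall_eval_tendsto_topDualPairing

/-- The functional `f ↦ φ (g f)`. -/
noncomputable def mulL (g : C(K, ℝ)) (φ : M K) : M K :=
  StrongDual.toWeakDual
    ((WeakDual.toStrongDual φ).comp (ContinuousLinearMap.mul ℝ C(K, ℝ) g))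

@[simp] lemma mulL_apply (g : C(K, ℝ)) (φ : M K) (f : C(K, ℝ)) : mulL g φ f = φ (g * f) := rfl

@[simp] lemma dirac_apply (x : K) (f : C(K, ℝ)) : dirac x f = f x := rfl

lemma mext {φ ψ : M K} (h : ∀ f, φ f = ψ f) : φ = ψ := DFunLike.ext _ _ h

/-- Positive functionals. -/
def Pos (φ : M K) : Prop := ∀ f : C(K, ℝ), 0 ≤ f → 0 ≤ φ f

lemma hull_claim {φ : M K} (h : φ ∈ convexHull ℝ (Diracs K)) :
    Pos φ ∧ ∃ F : Submodule ℝ (M K), F ≤ Submodule.span ℝ (Diracs K) ∧
      FiniteDimensional ℝ F ∧ ∀ g, mulL g φ ∈ F := by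
  refine convexHull_min (t := {φ : M K | Pos φ ∧ ∃ F : Submodule ℝ (M K),
    F ≤ Submodule.span ℝ (Diracs K) ∧ FiniteDimensional ℝ F ∧ ∀ g, mulL g φ ∈ F}) ?_ ?_ h
  · rintro _ ⟨x, rfl⟩
    refine ⟨fun f hf => hf x, Submodule.span ℝ {dirac x}, ?_, inferInstance, fun g => ?_⟩
    · exact Submodule.span_mono (singleton_subset_iff.2 ⟨x, rfl⟩)
    · rw [Submodule.mem_span_singleton]
      exact ⟨g x, mext fun f => rfl⟩
  · rintro φ ⟨hφ, F, hF, hF2, hF3⟩ ψ ⟨hψ, G, hG, hG2, hG3⟩ a b ha hb hab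
    refine ⟨fun f hf => ?_, F ⊔ G, sup_le hF hG, inferInstance, fun g => ?_⟩
    · change 0 ≤ a * φ f + b * ψ f
      exact add_nonneg (mul_nonneg ha (hφ f hf)) (mul_nonneg hb (hψ f hf))
    · have : mulL g (a • φ + b • ψ) = a • mulL g φ + b • mulL g ψ := rfl
      rw [this]
      exact add_mem (Submodule.smul_mem _ _ (Submodule.mem_sup_left (hF3 g)))
        (Submodule.smul_mem _ _ (Submodule.mem_sup_right (hG3 g)))

lemma claimA (α : Ordinal.{0}) : ∀ φ ∈ SeqIter (convexHull ℝ (Diracs K)) α,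
    Pos φ ∧ ∀ g, mulL g φ ∈ SeqIter (Submodule.span ℝ (Diracs K) : Set (M K)) α := by
  induction α using Ordinal.limitRecOn with
  | zero =>
    intro φ hφ
    rw [seqIter_zero] at hφ
    obtain ⟨h1, F, hF, -, hF3⟩ := hull_claim hφ
    refine ⟨h1, fun g => ?_⟩
    rw [seqIter_zero]
    exact hF (hF3 g)
  | add_one α ih =>
    intro φ hφ
    rw [seqIter_add_one] at hφ
    obtain ⟨u, hu, hlim⟩ := hφ
    rw [tendsto_iff] at hlim
    refine ⟨fun f hf => ge_of_tendsto' (hlim f) fun n => (ih _ (hu n)).1 f hf, fun g => ?_⟩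
    rw [seqIter_add_one]
    refine ⟨fun n => mulL g (u n), fun n => (ih _ (hu n)).2 g, ?_⟩
    rw [tendsto_iff]
    intro f
    exact hlim (g * f)
  | limit α hα ih =>
    intro φ hφ
    rw [seqIter_limit _ hα] at hφ
    simp only [mem_iUnion] at hφ
    obtain ⟨β, hβ, hφ⟩ := hφ
    refine ⟨(ih β hβ φ hφ).1, fun g => ?_⟩
    rw [seqIter_limit _ hα]
    simp only [mem_iUnion]
    exact ⟨β, hβ, (ih β hβ φ hφ).2 g⟩

lemma pos_abs {χ : M K} (hχ : Pos χ) (D f : C(K, ℝ)) : |χ (D * f)| ≤ ‖f‖ * χ |D| := by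
  have h1 : ∀ s : C(K, ℝ), (∀ x, s x ≤ ‖f‖ * |D x|) → χ s ≤ ‖f‖ * χ |D| := by
    intro s hs
    have h2 : 0 ≤ χ (‖f‖ • |D| - s) := hχ _ (by
      rw [ContinuousMap.le_def]
      intro x
      have := hs x
      simp only [ContinuousMap.coe_zero, Pi.zero_apply, ContinuousMap.coe_sub,
        ContinuousMap.coe_smul, Pi.sub_apply, Pi.smul_apply, ContinuousMap.abs_apply, smul_eq_mul]
      linarith)
    rw [map_sub, map_smul, smul_eq_mul] at h2
    linarith
  have hb : ∀ x, |D x * f x| ≤ ‖f‖ * |D x| := by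
    intro x
    rw [abs_mul, mul_comm]
    exact mul_le_mul_of_nonneg_right (f.norm_coe_le_norm x) (abs_nonneg _)
  rw [abs_le]
  constructor
  · have h3 := h1 (-(D * f)) (fun x => by
      have := neg_abs_le (D x * f x)
      have := hb x
      simp only [ContinuousMap.coe_neg, Pi.neg_apply, ContinuousMap.coe_mul, Pi.mul_apply]
      linarith)
    rw [map_neg] at h3
    linarith
  · exact h1 _ (fun x => (le_abs_self _).trans (hb x))

lemma tele {χ : M K} (hχ : Pos χ) (g : ℕ → C(K, ℝ)) (f : C(K, ℝ)) (k N : ℕ) (hkN : k ≤ N)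
    (h : ∀ j < N, χ |g (j + 1) - g j| < (1 / 2) ^ j) :
    |χ (g N * f) - χ (g k * f)| ≤ ‖f‖ * (2 * (1 / 2) ^ k - 2 * (1 / 2) ^ N) := by
  induction N, hkN using Nat.le_induction with
  | base => simp
  | succ N hkN ih =>
    have h1 := ih fun j hj => h j (hj.trans (Nat.lt_succ_self N))
    have h2 := pos_abs hχ (g (N + 1) - g N) f
    rw [sub_mul, map_sub] at h2
    have h3 := h N (Nat.lt_succ_self N)
    have h4 : ‖f‖ * χ |g (N + 1) - g N| ≤ ‖f‖ * (1 / 2) ^ N :=
      mul_le_mul_of_nonneg_left h3.le (norm_nonneg _)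
    have h5 := abs_add_le (χ (g (N + 1) * f) - χ (g N * f)) (χ (g N * f) - χ (g k * f))
    rw [sub_add_sub_cancel] at h5
    have h6 : ((1 : ℝ) / 2) ^ (N + 1) = (1 / 2) ^ N / 2 := by rw [pow_succ]; ring
    rw [h6]
    nlinarith [norm_nonneg f]

lemma step {u : ℕ → M K} {φ ψ : M K} (hu : ∀ n, Pos (u n))
    (hlim : Tendsto u atTop (𝓝 φ)) (g : ℕ → C(K, ℝ))
    (hg : ∀ k, φ |g (k + 1) - g k| < (1 / 2) ^ k)
    (hψ : ∀ f, Tendsto (fun k => φ (g k * f)) atTop (𝓝 (ψ f))) :
    ∃ k : ℕ → ℕ, Tendsto (fun n => mulL (g (k n)) (u n)) atTop (𝓝 ψ) := by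
  classical
  rw [tendsto_iff] at hlim
  let P : ℕ → ℕ → Prop := fun k n => ∀ j < k, u n |g (j + 1) - g j| < (1 / 2) ^ j
  have hP : ∀ k, ∀ᶠ n in atTop, P k n := by
    intro k
    have : ∀ j ∈ Finset.range k, ∀ᶠ n in atTop, u n |g (j + 1) - g j| < (1 / 2) ^ j :=
      fun j _ => (hlim _).eventually (eventually_lt_nhds (hg j))
    filter_upwards [(Filter.eventually_all_finset _).2 this] with n hn j hj
    exact hn j (Finset.mem_range.2 hj)
  let κ : ℕ → ℕ := fun n => Nat.findGreatest (fun k => P k n) n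
  have hκ1 : ∀ n, P (κ n) n := fun n =>
    Nat.findGreatest_spec (P := fun k => P k n) (Nat.zero_le n) (fun j hj => absurd hj (by simp))
  have hκ2 : ∀ k, ∀ᶠ n in atTop, k ≤ κ n := by
    intro k
    filter_upwards [hP k, eventually_ge_atTop k] with n hn hkn
    exact Nat.le_findGreatest hkn hn
  refine ⟨κ, ?_⟩
  rw [tendsto_iff]
  intro f
  rw [Metric.tendsto_nhds]
  intro ε hε
  have h1 : Tendsto (fun k : ℕ => ‖f‖ * (2 * (1 / 2) ^ k)) atTop (𝓝 0) := by
    have := (tendsto_pow_atTop_nhds_zero_of_lt_one (r := (1 : ℝ) / 2) (by norm_num)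
      (by norm_num)).const_mul 2 |>.const_mul ‖f‖
    simpa using this
  have h2 := (h1.eventually (eventually_lt_nhds (show (0 : ℝ) < ε / 3 by positivity))).and
    ((Metric.tendsto_nhds.1 (hψ f)) (ε / 3) (by positivity))
  obtain ⟨k, hk1, hk2⟩ := h2.exists
  filter_upwards [hκ2 k, (Metric.tendsto_nhds.1 (hlim (g k * f))) (ε / 3) (by positivity)]
    with n hn1 hn2
  rw [mulL_apply]
  have h3 := tele (hu n) g f k (κ n) hn1 (hκ1 n)
  rw [Real.dist_eq] at hk2 hn2 ⊢
  have h4 : 0 ≤ ‖f‖ * (2 * (1 / 2) ^ (κ n)) := by positivity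
  rw [abs_lt] at hk2 hn2 ⊢
  rw [abs_le] at h3
  rw [mul_sub] at h3
  constructor <;> linarith [h3.1, h3.2, hk2.1, hk2.2, hn2.1, hn2.2]

lemma claimB (α : Ordinal.{0}) : ∀ φ ∈ SeqIter (convexHull ℝ (Diracs K)) α,
    ∀ (ψ : M K) (g : ℕ → C(K, ℝ)), (∀ k, φ |g (k + 1) - g k| < (1 / 2) ^ k) →
    (∀ f, Tendsto (fun k => φ (g k * f)) atTop (𝓝 (ψ f))) →
    ψ ∈ SeqIter (Submodule.span ℝ (Diracs K) : Set (M K)) α := by
  induction α using Ordinal.limitRecOn with
  | zero =>
    intro φ hφ ψ g hg hψ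
    rw [seqIter_zero] at hφ ⊢
    obtain ⟨h1, F, hF, hF2, hF3⟩ := hull_claim hφ
    have hcl : IsClosed (F : Set (M K)) := F.closed_of_finiteDimensional
    exact hF (hcl.mem_of_tendsto (tendsto_iff.2 hψ)
      (Eventually.of_forall fun k => hF3 (g k)))
  | add_one α ih =>
    intro φ hφ ψ g hg hψ
    rw [seqIter_add_one] at hφ ⊢
    obtain ⟨u, hu, hlim⟩ := hφ
    obtain ⟨k, hk⟩ := step (fun n => (claimA α _ (hu n)).1) hlim g hg hψ
    exact ⟨fun n => mulL (g (k n)) (u n), fun n => (claimA α _ (hu n)).2 _, hk⟩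
  | limit α hα ih =>
    intro φ hφ ψ g hg hψ
    rw [seqIter_limit _ hα] at hφ ⊢
    simp only [mem_iUnion] at hφ ⊢
    obtain ⟨β, hβ, hφ⟩ := hφ
    exact ⟨β, hβ, ih β hβ φ hφ ψ g hg hψ⟩

section final

variable [T2Space K] [MeasurableSpace K] [BorelSpace K]

/-- Let `K` be a compact Hausdorff space, `α` a countable ordinal, `μ` a Radon probability measure
on `K` which (as a functional on `C(K)`) lies in `Seq^α(co Δ_K)`, and `ν` a signed measure with
`|ν| ≪ μ`. Then `ν` (as a functional on `C(K)`) lies in `Seq^α(lin Δ_K)`. -/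
theorem result (α : Ordinal.{0}) (_hα : α < Ordinal.omega 1)
    (μ : Measure K) [IsProbabilityMeasure μ] [μ.Regular]
    (φ : M K) (hφ : Represents φ μ) (hmem : φ ∈ SeqIter (convexHull ℝ (Diracs K)) α)
    (ν : SignedMeasure K) (hν : ν.totalVariation ≪ μ) (ψ : M K) (hψ : SRepresents ψ ν) :
    ψ ∈ SeqIter (Submodule.span ℝ (Diracs K) : Set (M K)) α := by
  have hp : ν.toJordanDecomposition.posPart ≪ μ :=
    ((SignedMeasure.totalVariation_absolutelyContinuous_iff ν μ).1 hν).1
  have hn : ν.toJordanDecomposition.negPart ≪ μ :=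
    ((SignedMeasure.totalVariation_absolutelyContinuous_iff ν μ).1 hν).2
  set a : K → ℝ := fun x => (ν.toJordanDecomposition.posPart.rnDeriv μ x).toReal with ha
  set b : K → ℝ := fun x => (ν.toJordanDecomposition.negPart.rnDeriv μ x).toReal with hb
  have hia : Integrable a μ := Measure.integrable_toReal_rnDeriv
  have hib : Integrable b μ := Measure.integrable_toReal_rnDeriv
  have hbdd : ∀ (f : C(K, ℝ)) {c : K → ℝ}, Integrable c μ → Integrable (fun x => c x * f x) μ := by
    intro f c hc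
    refine hc.mul_bdd (c := ‖f‖) f.continuous.aestronglyMeasurable
      (Eventually.of_forall fun x => f.norm_coe_le_norm x)
  have hψ2 : ∀ f : C(K, ℝ), ψ f = ∫ x, (a x - b x) * f x ∂μ := by
    intro f
    rw [hψ f, ← integral_rnDeriv_smul hp, ← integral_rnDeriv_smul hn, ← integral_sub]
    · refine integral_congr_ae (Eventually.of_forall fun x => ?_)
      simp only [smul_eq_mul, ha, hb]
      ring
    · simpa only [smul_eq_mul] using hbdd f hia
    · simpa only [smul_eq_mul] using hbdd f hib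
  have hh : Integrable (fun x => a x - b x) μ := hia.sub hib
  generalize hhdef : (fun x => a x - b x) = h at hh
  have hψ3 : ∀ f : C(K, ℝ), ψ f = ∫ x, h x * f x ∂μ := by
    intro f
    rw [hψ2 f, ← hhdef]
  have hex : ∀ k : ℕ, ∃ g : C(K, ℝ), ∫ x, ‖h x - g x‖ ∂μ ≤ (1 / 2) ^ k / 4 := by
    intro k
    obtain ⟨g, -, h2, h3, -⟩ := hh.exists_hasCompactSupport_integral_sub_le
      (ε := (1 / 2) ^ k / 4) (by positivity)
    exact ⟨⟨g, h3⟩, h2⟩
  choose g hg using hex
  have hgi : ∀ k, Integrable (fun x => g k x) μ := fun k => by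
    have := hbdd (g k) (integrable_const (μ := μ) (1 : ℝ))
    simpa using this
  refine claimB α φ hmem ψ g (fun k => ?_) (fun f => ?_)
  · rw [hφ]
    have h1 : ∫ x, |g (k + 1) - g k| x ∂μ ≤
        (∫ x, ‖h x - g (k + 1) x‖ ∂μ) + ∫ x, ‖h x - g k x‖ ∂μ := by
      have hi : ∀ j, Integrable (fun x => ‖h x - g j x‖) μ := fun j => (hh.sub (hgi j)).norm
      rw [← integral_add (hi _) (hi _)]
      refine integral_mono_of_nonneg (Eventually.of_forall fun x => ?_)
        ((hi _).add (hi _)) (Eventually.of_forall fun x => ?_)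
      · simp
      · simp only [ContinuousMap.abs_apply, ContinuousMap.coe_sub, Pi.sub_apply, Real.norm_eq_abs]
        have := abs_sub_le (g (k + 1) x) (h x) (g k x)
        rw [abs_sub_comm (g (k + 1) x) (h x)] at this
        exact this
    have h2 : (0 : ℝ) < (1 / 2) ^ k := by positivity
    have h3 : ((1 : ℝ) / 2) ^ (k + 1) = (1 / 2) ^ k / 2 := by rw [pow_succ]; ring
    have h4 := hg k
    have h5 := hg (k + 1)
    rw [h3] at h5
    linarith
  · rw [hψ3 f]
    have h1 : ∀ k, ‖φ (g k * f) - ∫ x, h x * f x ∂μ‖ ≤ ‖f‖ * ((1 / 2) ^ k / 4) := by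
      intro k
      rw [hφ, ← integral_sub]
      · refine (norm_integral_le_integral_norm _).trans ?_
        have h2 : ∫ x, ‖(g k * f) x - h x * f x‖ ∂μ ≤ ∫ x, ‖f‖ * ‖h x - g k x‖ ∂μ := by
          refine integral_mono_of_nonneg (Eventually.of_forall fun x => norm_nonneg _)
            ((hh.sub (hgi _)).norm.const_mul _) (Eventually.of_forall fun x => ?_)
          simp only [ContinuousMap.coe_mul, Pi.mul_apply]
          rw [← sub_mul, norm_mul, norm_sub_rev, mul_comm]
          exact mul_le_mul_of_nonneg_right (f.norm_coe_le_norm x) (norm_nonneg _)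
        refine h2.trans ?_
        rw [integral_const_mul]
        exact mul_le_mul_of_nonneg_left (hg k) (norm_nonneg _)
      · exact hbdd f (hgi k)
      · exact hbdd f hh
    rw [tendsto_iff_norm_sub_tendsto_zero]
    refine squeeze_zero (fun _ => norm_nonneg _) h1 ?_
    have := ((tendsto_pow_atTop_nhds_zero_of_lt_one (r := (1 : ℝ) / 2) (by norm_num)
      (by norm_num)).div_const 4).const_mul ‖f‖
    simpa using this

end final

end Pool.Agent.Results.MP_1e6c42_an.AbsContinuous
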